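import Mathlib

namespace Pool.Agent.Results.MP_3684f0_an.Exposed

open Filter Topology RealInnerProductSpace

def Good {H : Type} [NormedAddCommGroup H] [InnerProductSpace ℝ H] (C : Set H) (x p : H) : Prop :=
  p ∈ C ∧ (∀ y ∈ C, ‖x - p‖ ≤ ‖x - y‖) ∧ (∀ y ∈ C, ⟪x - p, y⟫ ≤ ⟪x - p, p⟫) ∧
    ∀ y : ℕ → H, (∀ k, y k ∈ C) → Tendsto (fun k => ⟪x - p, y k⟫) atTop (𝓝 ⟪x - p, p⟫) →
      Tendsto y atTop (𝓝 p)

theorem good {H : Type} [NormedAddCommGroup H] [InnerProductSpace ℝ H] (C : Set H) (p q : H)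
    (hp : p ∈ C) (h : ∀ y ∈ C, ‖y + q‖ ^ 2 - ‖y‖ ^ 2 / 2 ≤ ‖p + q‖ ^ 2 - ‖p‖ ^ 2 / 2) :
    Good C ((2 : ℝ) • (p + q)) p := by
  have k : ∀ y ∈ C, ‖y - p‖ ^ 2 ≤ 2 * (⟪(2 : ℝ) • (p + q) - p, p⟫ - ⟪(2 : ℝ) • (p + q) - p, y⟫) :=
    fun y hy => by
      have := h y hy
      simp only [norm_add_sq_real, norm_sub_sq_real, inner_sub_left, inner_smul_left, inner_add_left,
        real_inner_self_eq_norm_sq, conj_trivial] at this ⊢
      linarith [real_inner_comm y p, real_inner_comm y q, real_inner_comm p q]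
  refine ⟨hp, fun y hy => ?_, fun y hy => by nlinarith [k y hy, sq_nonneg ‖y - p‖], fun y hy t => ?_⟩
  · refine le_of_sq_le_sq ?_ (norm_nonneg _)
    rw [show (2 : ℝ) • (p + q) - y = ((2 : ℝ) • (p + q) - p) - (y - p) by abel,
      norm_sub_sq_real _ (y - p), inner_sub_right]
    nlinarith [k y hy, sq_nonneg ‖y - p‖]
  · have := (squeeze_zero (fun _ => sq_nonneg _) (fun n => k _ (hy n))
      (by simpa using (t.const_sub ⟪(2 : ℝ) • (p + q) - p, p⟫).const_mul 2)).sqrt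
    simpa [tendsto_iff_norm_sub_tendsto_zero (f := y)] using this

theorem result (H : Type) [NormedAddCommGroup H] [InnerProductSpace ℝ H] (C₁ C₂ : Set H)
    (n₁ : C₁.Nonempty) (n₂ : C₂.Nonempty) (k₁ : IsCompact C₁) (k₂ : IsCompact C₂) :
    ∃ x p₁ p₂ : H, Good C₁ x p₁ ∧ Good C₂ x p₂ := by
  obtain ⟨⟨p, q⟩, ⟨hp, hq⟩, h⟩ := (k₁.prod k₂).exists_isMaxOn (n₁.prod n₂)
    (f := fun z : H × H => ‖z.1 + z.2‖ ^ 2 - ‖z.1‖ ^ 2 / 2 - ‖z.2‖ ^ 2 / 2) (by fun_prop)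
  refine ⟨_, p, q, good C₁ p q hp fun y hy => ?_, add_comm q p ▸ good C₂ q p hq fun y hy => ?_⟩
  · have := isMaxOn_iff.1 h (y, q) ⟨hy, hq⟩
    simp only at this
    linarith
  · have := isMaxOn_iff.1 h (p, y) ⟨hp, hy⟩
    simp only at this
    rw [add_comm y, add_comm q]
    linarith

end Pool.Agent.Results.MP_3684f0_an.Exposed
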